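import Pool.Agent.Work.MP_14a437_ag.M.ThmC

/-!
# Every component of the space of stability conditions maps onto all generic central charges
-/

open CategoryTheory CategoryTheory.Limits CategoryTheory.Pretriangulated MP_14a437_ag

universe v u

namespace Pool.Agent.Results.MP_14a437_ag.ComponentImage

theorem result {k : Type*} [Field k] [IsAlgClosed k] {C : Type u} [Category.{v} C]
    [Preadditive C] [HasZeroObject C] [HasShift C ℤ] [∀ n : ℤ, (shiftFunctor C n).Additive]
    [Pretriangulated C] [IsTriangulated C] [Linear k C] (hC : IsTubularCY2 k C) (a b : K0 C)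
    (ha : a ∈ radical hC.cy) (hb : b ∈ radical hC.cy)
    (hab : ∀ m n : ℤ, m • a + n • b = 0 → m = 0 ∧ n = 0)
    (σ : StabCond C) (W : K0 C →+ ℂ) (hW : ∀ x, x ≠ 0 → eulerForm hC.cy x x ≤ 2 → W x ≠ 0)
    (hs : 0 < orient a b σ * (starRingEnd ℂ (W a) * W b).im) :
    ∃ τ : StabCond C, @Joined (StabCond C) fineTopology σ τ ∧ τ.Z = W := by
  obtain ⟨τ, hZ, hj⟩ := component_surjects hC ha hb hab σ W
    ⟨right_ne_zero_of_mul hs.ne', hW⟩ hs
  exact ⟨τ, hj, hZ⟩

end Pool.Agent.Results.MP_14a437_ag.ComponentImage
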