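import Pool.Agent.Work.MP_14a437_ag.M.ThmD

/-!
# Stability conditions with semistable objects in all radical directions are dense
-/

open CategoryTheory CategoryTheory.Limits CategoryTheory.Pretriangulated MP_14a437_ag

universe v u

namespace Pool.Agent.Results.MP_14a437_ag.DenseRadical

theorem result {k : Type*} [Field k] [IsAlgClosed k] {C : Type u} [Category.{v} C]
    [Preadditive C] [HasZeroObject C] [HasShift C ℤ] [∀ n : ℤ, (shiftFunctor C n).Additive]
    [Pretriangulated C] [IsTriangulated C] [Linear k C] (hC : IsTubularCY2 k C)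
    (σ : StabCond C) (ε : ℝ) (hε : 0 < ε) (F : Finset (K0 C)) :
    ∃ τ : StabCond C, @Joined (StabCond C) fineTopology σ τ ∧
      Near σ.toSlicing τ.toSlicing ε ∧ (∀ x ∈ F, ‖τ.Z x - σ.Z x‖ ≤ ε) ∧
      ∀ v ∈ radical hC.cy, v ≠ 0 → ∃ (φ : ℝ) (E : C), τ.P φ E ∧ ¬ IsZero E ∧
        ∃ p q : ℕ, 0 < p ∧ 0 < q ∧ q • cl E = p • v :=
  dense_radical hC σ hε F

end Pool.Agent.Results.MP_14a437_ag.DenseRadical
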