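import Pool.Agent.Work.MP_14a437_ag.T.TStr
import Pool.Agent.Work.MP_14a437_ag.T.ThmA
import Pool.Agent.Work.MP_14a437_ag.L.Rank2
import Pool.Agent.Work.MP_14a437_ag.Hyp

/-!
# No bounded t-structure has a heart of finite length
-/

open CategoryTheory CategoryTheory.Limits CategoryTheory.Pretriangulated MP_14a437_ag

universe v u

namespace Pool.Agent.Results.MP_14a437_ag.NoFiniteLengthHeart

theorem result {k : Type*} [Field k] {C : Type u} [Category.{v} C]
    [Preadditive C] [HasZeroObject C] [HasShift C ℤ] [∀ n : ℤ, (shiftFunctor C n).Additive]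
    [Pretriangulated C] [IsTriangulated C] [Linear k C] (hC : IsTubularCY2 k C)
    (t : Triangulated.TStructure C) (hb : ∀ X : C, t.bounded X) :
    ¬ FiniteLength t.heart := by
  intro hfl
  haveI := hC.free
  haveI := hC.finite
  have hCY := hC.cy
  have hpsd : ∀ x, 0 ≤ eulerForm hCY x x := fun x => by
    obtain ⟨X, rfl⟩ := exists_obj x
    rw [eulerForm_cl]; exact hC.semidefinite X
  obtain ⟨a, ha, b, hb', hab⟩ := exists_basis_rank_two (radical hCY) hC.rank_radical
  obtain ⟨S, hS⟩ := exists_slicing_of_tstructure t hb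
  have hS' : S.heart 0 = t.heart := funext fun E => propext (hS E)
  have hfl' : FiniteLength (S.heart 0) := by rw [hS']; exact hfl
  obtain ⟨m, n, hmn, h0⟩ := not_finiteLength hCY hC.indecomposable hpsd S 0 hfl' a b ha hb'
  obtain ⟨rfl, rfl⟩ := hab m n h0
  simp at hmn

end Pool.Agent.Results.MP_14a437_ag.NoFiniteLengthHeart
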