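import Pool.Agent.Work.MP_14a437_ag.T.Orient
import Pool.Agent.Work.MP_14a437_ag.L.Rank2
import Pool.Agent.Work.MP_14a437_ag.Hyp

/-!
# Every stability condition is nondegenerate on the radical; `Stab = Stab⁺ ⊔ Stab⁻`
-/

open CategoryTheory CategoryTheory.Limits CategoryTheory.Pretriangulated MP_14a437_ag

universe v u

namespace Pool.Agent.Results.MP_14a437_ag.Orientation

theorem result {k : Type*} [Field k] [IsAlgClosed k] {C : Type u} [Category.{v} C]
    [Preadditive C] [HasZeroObject C] [HasShift C ℤ] [∀ n : ℤ, (shiftFunctor C n).Additive]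
    [Pretriangulated C] [IsTriangulated C] [Linear k C] (hC : IsTubularCY2 k C) (a b : K0 C)
    (ha : a ∈ radical hC.cy) (hb : b ∈ radical hC.cy)
    (hab : ∀ m n : ℤ, m • a + n • b = 0 → m = 0 ∧ n = 0) :
    IsClopen {σ : StabCond C | 0 < orient a b σ} ∧
    IsClopen {σ : StabCond C | orient a b σ < 0} ∧
    {σ : StabCond C | 0 < orient a b σ} ∪ {σ : StabCond C | orient a b σ < 0} = Set.univ ∧
    ∀ (σ τ : StabCond C) (ε : ℝ), ε < 1 / 2 → Near σ.toSlicing τ.toSlicing ε →
      0 < orient a b σ * orient a b τ := by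
  haveI := hC.free
  haveI := hC.finite
  have hCY := hC.cy
  have hpsd : ∀ x, 0 ≤ eulerForm hCY x x := fun x => by
    obtain ⟨X, rfl⟩ := exists_obj x
    rw [eulerForm_cl]; exact hC.semidefinite X
  have hspan := span_of_rank_two (radical hCY) hC.rank_radical ha hb hab
  have h0 : ∀ σ : StabCond C, orient a b σ ≠ 0 :=
    orient_ne_zero hCY hC.indecomposable hpsd ha hb hab hspan
  have h1 : ∀ (σ τ : StabCond C) (ε : ℝ), ε < 1 / 2 →
      Near σ.toSlicing τ.toSlicing ε → 0 < orient a b σ * orient a b τ := by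
    intro σ τ ε hε hn
    have hn' : Near σ.toSlicing τ.toSlicing (max ε 0) := hn.mono (le_max_left _ _)
    exact orient_near hCY hC.indecomposable hpsd ha hb hab hspan σ τ (le_max_right _ _)
      (max_lt hε (by norm_num)) hn'
  have hop : IsOpen {σ : StabCond C | 0 < orient a b σ} := by
    rw [isOpen_stab_iff]
    intro σ hσ
    refine ⟨1 / 4, by norm_num, fun τ hτ => ?_⟩
    exact (pos_iff_pos_of_mul_pos (h1 σ τ _ (by norm_num) hτ)).1 hσ
  have hon : IsOpen {σ : StabCond C | orient a b σ < 0} := by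
    rw [isOpen_stab_iff]
    intro σ hσ
    refine ⟨1 / 4, by norm_num, fun τ hτ => ?_⟩
    exact (neg_iff_neg_of_mul_pos (h1 σ τ _ (by norm_num) hτ)).1 hσ
  have hc1 : {σ : StabCond C | 0 < orient a b σ}ᶜ = {σ : StabCond C | orient a b σ < 0} := by
    ext σ
    simp only [Set.mem_compl_iff, Set.mem_setOf_eq, not_lt]
    exact ⟨fun h => lt_of_le_of_ne h (h0 σ), le_of_lt⟩
  have hc2 : {σ : StabCond C | orient a b σ < 0}ᶜ = {σ : StabCond C | 0 < orient a b σ} := by
    rw [← hc1, compl_compl]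
  refine ⟨⟨⟨by rw [hc1]; exact hon⟩, hop⟩, ⟨⟨by rw [hc2]; exact hop⟩, hon⟩, ?_, h1⟩
  ext σ
  simp only [Set.mem_union, Set.mem_setOf_eq, Set.mem_univ, iff_true]
  rcases lt_or_gt_of_ne (h0 σ) with h | h
  · exact Or.inr h
  · exact Or.inl h

end Pool.Agent.Results.MP_14a437_ag.Orientation
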